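import Pool.Agent.Lib.Pe08634.Main

/-!
# Sums of two primorials: a polynomial bound for `a(n)` and the shape of composite values

`pr k` is the `k`-th prime, `P k` the `k`-th primorial, `Free n m` says that `m` divides no
`P_i + P_j`, `1 ≤ i < j ≤ n`, and `a n` is the least `m > 1` with `Free n m`.
-/

set_option autoImplicit false

open Finset Filter Pool.Agent.Pe08634

namespace Pool.Agent.Results.MP_e08634_nt.CubicBound

/-- Upper and lower bounds for `a(n)`, and restrictions on its composite values. -/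
theorem result :
    (∀ n : ℕ, 2 ≤ n → (a n : ℝ) < (n : ℝ) ^ 3 * Real.log n) ∧
    (∀ ε : ℝ, 0 < ε → ∀ᶠ n : ℕ in atTop, (a n : ℝ) ≤ (1 / 6 + ε) * ((n : ℝ) ^ 3 * Real.log n)) ∧
    (∀ A : ℕ, ∀ᶠ n : ℕ in atTop, Real.log n ^ A < (a n : ℝ)) ∧
    (∀ n : ℕ, 2 ≤ n → 2 ∣ a n → 8 ∣ a n) ∧
    (∀ n : ℕ, 2 ≤ n → Squarefree (a n) →
      (∃ q, q.Prime ∧ q ∣ a n ∧ pr n ≤ q) ∧ (¬ (a n).Prime → 3 * pr n ≤ a n)) ∧
    (∀ n i j : ℕ, 1 ≤ i → i < j → j ≤ n → (∀ q, q.Prime → q ∣ a n → q ≤ pr i) →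
      ¬ a n / rad (a n) ∣ 1 + ∏ t ∈ Ioc i j, pr t) ∧
    (∀ A : ℕ, ∀ᶠ n : ℕ in atTop, Real.log n ^ A < ((a n / rad (a n) : ℕ) : ℝ) ∨
      ∃ q, q.Prime ∧ q ∣ a n ∧ (pr n : ℝ) - pr n / Real.log n ^ A < q) :=
  ⟨fun _ hn => a_lt hn, fun _ hε => asymp hε, log_pow_lt, fun _ hn h => eight_dvd hn h,
    fun _ hn h => ⟨squarefree_factor hn h, fun hp => squarefree_composite hn h hp⟩,
    fun _ _ _ hi hij hj h => shape hi hij hj h, composite_shape⟩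

end Pool.Agent.Results.MP_e08634_nt.CubicBound
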